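import Pool.Agent.H41.SU.Main
import Pool.Agent.H45.SR.Tr

set_option autoImplicit false

open Finset

namespace H41SU

/-- helper45: the case without `S`-units (bilinear square sieve, level sets, recursion) -/
theorem base45 (H Q : ℕ) (r : ℚ) (A : Finset ℚ) (hH : 2 ≤ H) (hQ : 1 ≤ Q) (hr : r ≠ 0)
    (hA : ∀ a ∈ A, ∃ x : ℚ, |x.num| ≤ (H : ℤ) ∧ x.den ≤ Q ∧ a = (r * x) ^ 2)
    (k : ℕ) (hk : 1 ≤ k) :
    ((((Fintype.piFinset (fun _ : Fin (k + 1) => A)) ×ˢ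
            (Fintype.piFinset (fun _ : Fin (k + 1) => A))).filter
            (fun p : (Fin (k + 1) → ℚ) × (Fin (k + 1) → ℚ) =>
              ∑ i, p.1 i = ∑ i, p.2 i)).card : ℝ)
          ≤ (50000 * (Real.log (((k : ℝ) + 1) * H) + ((k : ℝ) + 1) * Real.log Q)) ^ ((25 : ℝ) / 7) *
            (A.card : ℝ) ^ (2 * (k : ℝ) + 6 / 7 * (1 / 2 : ℝ) ^ k) := by
  obtain ⟨A', hA', eA, cA⟩ := H45SR.descend H Q r A hr hA
  have hr0 : r ^ 2 ≠ 0 := pow_ne_zero 2 hr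
  obtain ⟨j, rfl⟩ : ∃ j, k = j + 1 := ⟨k - 1, by omega⟩
  have hj0 : (0 : ℝ) ≤ j := Nat.cast_nonneg _
  have e1 : (((j + 1 : ℕ) : ℝ) + 1) = (j : ℝ) + 2 := by push_cast; ring
  have e2 : 2 * (((j + 1 : ℕ) : ℝ)) + 6 / 7 * (1 / 2 : ℝ) ^ (j + 1)
      = 2 * (j : ℝ) + 2 + 3 / 7 * (1 / 2 : ℝ) ^ j := by rw [pow_succ]; push_cast; ring
  rw [e1, e2]
  have hθ0 : (0 : ℝ) < 3 / 7 * (1 / 2 : ℝ) ^ j := by positivity
  obtain ⟨θ, hθ⟩ : ∃ θ : ℝ, θ = 3 / 7 * (1 / 2 : ℝ) ^ j := ⟨_, rfl⟩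
  rw [← hθ] at hθ0 ⊢
  obtain ⟨K, hK⟩ : ∃ K : ℝ, K = (50000 * (Real.log (((j : ℝ) + 2) * H) +
    ((j : ℝ) + 2) * Real.log Q)) ^ ((25 : ℝ) / 7) := ⟨_, rfl⟩
  have hK' : K = (50000 * H45SR.lg ((j : ℝ) + 2) H Q) ^ ((25 : ℝ) / 7) := by
    rw [hK]
    rfl
  obtain ⟨n, hn⟩ : ∃ n : ℝ, n = (A.card : ℝ) := ⟨_, rfl⟩
  by_cases hA0 : A.card = 0
  · have hn0 : n = 0 := by rw [hn, hA0]; norm_num
    have hT := H45SQ.ten_le (j + 1) A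
    rw [hA0] at hT
    have hT' : H45SQ.ten (j + 1 + 1) A = 0 := by simpa using hT
    rw [← hK, ← hn, hn0, Real.zero_rpow (by linarith : (2 : ℝ) * j + 2 + θ ≠ 0)]
    change (H45SQ.ten (j + 1 + 1) A : ℝ) ≤ K * 0
    rw [hT']
    simp
  have h0 := H45SR.ten_sharp H Q hH hQ A' hA' (by rw [cA]; exact hA0) j
  rw [← H45SR.ten_image (j + 2) A' (r ^ 2) hr0, eA, cA, ← hn, ← hθ, ← hK'] at h0
  rw [← hK, ← hn]
  exact h0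

end H41SU
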