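import Pool.Agent.H41.SU.Hol2

set_option autoImplicit false

open Finset

namespace H41SU

theorem card_lt_fin (n : ℕ) :
    2 * ((Finset.univ : Finset (Fin n × Fin n)).filter (fun p => p.1 < p.2)).card = n * (n - 1) := by
  have h1 : ((Finset.univ : Finset (Fin n × Fin n)).filter (fun p => p.1 < p.2)).card
      = ((Finset.univ : Finset (Fin n × Fin n)).filter (fun p => p.2 < p.1)).card := by
    apply Finset.card_nbij' Prod.swap Prod.swap
    · intro p hp
      simpa using hp
    · intro p hp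
      simpa using hp
    · intro p _; exact Prod.swap_swap p
    · intro p _; exact Prod.swap_swap p
  have h2 : Disjoint ((Finset.univ : Finset (Fin n × Fin n)).filter (fun p => p.1 < p.2))
      ((Finset.univ : Finset (Fin n × Fin n)).filter (fun p => p.2 < p.1)) := by
    rw [Finset.disjoint_filter]
    intro p _ hp
    exact not_lt.mpr hp.le
  have h3 : ((Finset.univ : Finset (Fin n × Fin n)).filter (fun p => p.1 < p.2)) ∪
      ((Finset.univ : Finset (Fin n × Fin n)).filter (fun p => p.2 < p.1))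
      = (Finset.univ : Finset (Fin n)).offDiag := by
    ext p
    simp only [Finset.mem_union, Finset.mem_filter, Finset.mem_univ, true_and,
      Finset.mem_offDiag]
    constructor
    · intro h
      rcases h with h | h
      · exact h.ne
      · exact h.ne'
    · intro h
      exact lt_or_gt_of_ne h
  have h4 := Finset.card_union_of_disjoint h2
  rw [h3, Finset.offDiag_card, Finset.card_univ, Fintype.card_fin, ← h1] at h4
  rw [Nat.mul_sub_one]
  omega

/-- the pairs of positions -/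
def PP (k : ℕ) : Finset ((Fin (k + 1) ⊕ Fin (k + 1)) × (Fin (k + 1) ⊕ Fin (k + 1))) :=
  Finset.univ.filter (fun p => finSumFinEquiv p.1 < finSumFinEquiv p.2)

theorem card_PP (k : ℕ) : (PP k).card = (k + 1) * (2 * k + 1) := by
  have h1 : (PP k).card = ((Finset.univ : Finset (Fin (k + 1 + (k + 1)) × Fin (k + 1 + (k + 1)))).filter
      (fun p => p.1 < p.2)).card := by
    unfold PP
    apply Finset.card_nbij' (fun p => (finSumFinEquiv p.1, finSumFinEquiv p.2))
      (fun p => (finSumFinEquiv.symm p.1, finSumFinEquiv.symm p.2))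
    · intro p hp
      simpa using hp
    · intro p hp
      simpa using hp
    · intro p _; simp
    · intro p _; simp
  have h2 := card_lt_fin (k + 1 + (k + 1))
  rw [← h1] at h2
  have h3 : (k + 1 + (k + 1)) * (k + 1 + (k + 1) - 1) = 2 * ((k + 1) * (2 * k + 1)) := by
    have : k + 1 + (k + 1) - 1 = 2 * k + 1 := by omega
    rw [this]
    ring
  omega

/-- abstract decoupling for sums of `k + 1` terms -/
theorem decouple {J : Type*} [DecidableEq J] (k : ℕ) (hk : 1 ≤ k) (A : Finset ℚ) (κ : ℚ → J)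
    (h2 : ∀ z : Fin (k + 1) ⊕ Fin (k + 1) → ℚ, (∀ l, z l ∈ A) → ∑ l, sr (k + 1) l * z l = 0 →
      ∃ l l', l ≠ l' ∧ κ (z l) = κ (z l')) :
    (TT (k + 1) (fun _ => A) : ℝ) ^ ((1 : ℝ) / ((k : ℝ) + 1))
      ≤ (((k + 1) * (2 * k + 1) : ℕ) : ℝ) * ∑ j ∈ A.image κ,
        (TT (k + 1) (fun _ => A.filter (fun a => κ a = j)) : ℝ) ^ ((1 : ℝ) / ((k : ℝ) + 1)) := by
  obtain ⟨M, hM, φ, hφ⟩ := embed (k + 1) A
  have hk0 : (0 : ℝ) < (k : ℝ) + 1 := by positivity
  -- counts agree on boxes inside A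
  have hTc : ∀ Z : Fin (k + 1) ⊕ Fin (k + 1) → Finset ℚ, (∀ l, Z l ⊆ A) →
      TT (k + 1) Z = cnt M φ (sg (k + 1) M) Z := by
    intro Z hZ
    unfold TT cnt
    congr 1
    apply Finset.filter_congr
    intro z hz
    rw [Fintype.mem_piFinset] at hz
    exact (hφ z (fun l => hZ l (hz l))).symm
  have hmix : ∀ (p : (Fin (k + 1) ⊕ Fin (k + 1)) × (Fin (k + 1) ⊕ Fin (k + 1))), p ∈ PP k →
      ∀ j ∈ A.image κ,
      (TT (k + 1) (fun i => if i = p.1 ∨ i = p.2 then A.filter (fun a => κ a = j) else A) : ℝ)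
      ≤ (TT (k + 1) (fun _ => A.filter (fun a => κ a = j)) : ℝ) ^ ((1 : ℝ) / ((k : ℝ) + 1)) *
        (TT (k + 1) (fun _ => A) : ℝ) ^ ((k : ℝ) / ((k : ℝ) + 1)) := by
    intro p hp j _
    have hne : p.1 ≠ p.2 := by
      intro h
      unfold PP at hp
      rw [Finset.mem_filter, h] at hp
      exact lt_irrefl _ hp.2
    rw [hTc _ (fun l => by split_ifs; exacts [Finset.filter_subset _ _, Finset.Subset.refl _]),
      hTc _ (fun _ => Finset.filter_subset _ _), hTc _ (fun _ => Finset.Subset.refl _)]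
    exact mixed k hk M φ A (A.filter (fun a => κ a = j)) p.1 p.2 hne
  have hcov : TT (k + 1) (fun _ => A) ≤ ∑ p ∈ PP k, ∑ j ∈ A.image κ,
      TT (k + 1) (fun i => if i = p.1 ∨ i = p.2 then A.filter (fun a => κ a = j) else A) := by
    have hsub : ((Fintype.piFinset (fun _ : Fin (k + 1) ⊕ Fin (k + 1) => A)).filter
        (fun z : Fin (k + 1) ⊕ Fin (k + 1) → ℚ => ∑ l, sr (k + 1) l * z l = 0))
        ⊆ (PP k).biUnion (fun p => (A.image κ).biUnion (fun j =>
          (Fintype.piFinset (fun i => if i = p.1 ∨ i = p.2 then A.filter (fun a => κ a = j) else A)).filter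
            (fun z : Fin (k + 1) ⊕ Fin (k + 1) → ℚ => ∑ l, sr (k + 1) l * z l = 0))) := by
      intro z hz
      rw [Finset.mem_filter, Fintype.mem_piFinset] at hz
      obtain ⟨hz1, hz2⟩ := hz
      obtain ⟨l, l', hne, hκ⟩ := h2 z hz1 hz2
      have hne' : finSumFinEquiv l ≠ finSumFinEquiv l' := fun h => hne (finSumFinEquiv.injective h)
      have key : ∀ a b : Fin (k + 1) ⊕ Fin (k + 1), κ (z a) = κ (z b) →
          finSumFinEquiv a < finSumFinEquiv b → z ∈ (PP k).biUnion (fun p => (A.image κ).biUnion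
          (fun j => (Fintype.piFinset (fun i => if i = p.1 ∨ i = p.2 then
            A.filter (fun a => κ a = j) else A)).filter
            (fun z : Fin (k + 1) ⊕ Fin (k + 1) → ℚ => ∑ l, sr (k + 1) l * z l = 0))) := by
        intro a b hab hlt
        rw [Finset.mem_biUnion]
        refine ⟨(a, b), ?_, ?_⟩
        · unfold PP
          rw [Finset.mem_filter]
          exact ⟨Finset.mem_univ _, hlt⟩
        · rw [Finset.mem_biUnion]
          refine ⟨κ (z a), Finset.mem_image_of_mem _ (hz1 a), ?_⟩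
          rw [Finset.mem_filter, Fintype.mem_piFinset]
          refine ⟨fun i => ?_, hz2⟩
          by_cases hi : i = (a, b).1 ∨ i = (a, b).2
          · rw [if_pos hi, Finset.mem_filter]
            refine ⟨hz1 i, ?_⟩
            rcases hi with hi | hi
            · rw [hi]
            · rw [hi]; exact hab.symm
          · rw [if_neg hi]
            exact hz1 i
      rcases lt_or_gt_of_ne hne' with h | h
      · exact key l l' hκ h
      · exact key l' l hκ.symm h
    refine (Finset.card_le_card hsub).trans (Finset.card_biUnion_le.trans ?_)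
    exact Finset.sum_le_sum (fun p _ => Finset.card_biUnion_le)
  have hcov' : (TT (k + 1) (fun _ => A) : ℝ) ≤ ∑ p ∈ PP k, ∑ j ∈ A.image κ,
      (TT (k + 1) (fun i => if i = p.1 ∨ i = p.2 then A.filter (fun a => κ a = j) else A) : ℝ) := by
    exact_mod_cast hcov
  obtain ⟨S, hS⟩ : ∃ S : ℝ, S = ∑ j ∈ A.image κ,
      (TT (k + 1) (fun _ => A.filter (fun a => κ a = j)) : ℝ) ^ ((1 : ℝ) / ((k : ℝ) + 1)) := ⟨_, rfl⟩
  obtain ⟨T, hT⟩ : ∃ T : ℝ, T = (TT (k + 1) (fun _ => A) : ℝ) := ⟨_, rfl⟩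
  have hmain : T ≤ (((k + 1) * (2 * k + 1) : ℕ) : ℝ) * (S * T ^ ((k : ℝ) / ((k : ℝ) + 1))) := by
    rw [hT]
    refine hcov'.trans ?_
    have h3 : ∀ p ∈ PP k, ∑ j ∈ A.image κ,
      (TT (k + 1) (fun i => if i = p.1 ∨ i = p.2 then A.filter (fun a => κ a = j) else A) : ℝ)
      ≤ S * T ^ ((k : ℝ) / ((k : ℝ) + 1)) := by
      intro p hp
      rw [hS, Finset.sum_mul, hT]
      exact Finset.sum_le_sum (fun j hj => hmix p hp j hj)
    refine (Finset.sum_le_sum h3).trans (le_of_eq ?_)
    rw [Finset.sum_const, card_PP, nsmul_eq_mul, hT]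
  rw [← hS, ← hT]
  have hS0 : 0 ≤ S := by
    rw [hS]
    exact Finset.sum_nonneg (fun j _ => Real.rpow_nonneg (Nat.cast_nonneg _) _)
  have hT0 : 0 ≤ T := by rw [hT]; exact Nat.cast_nonneg _
  rcases hT0.eq_or_lt with h0 | h0
  · rw [← h0, Real.zero_rpow (by positivity)]
    positivity
  · have h4 : T = T ^ ((1 : ℝ) / ((k : ℝ) + 1)) * T ^ ((k : ℝ) / ((k : ℝ) + 1)) := by
      rw [← Real.rpow_add h0]
      have : (1 : ℝ) / ((k : ℝ) + 1) + (k : ℝ) / ((k : ℝ) + 1) = 1 := by field_simp; ring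
      rw [this, Real.rpow_one]
    have h5 : (0 : ℝ) < T ^ ((k : ℝ) / ((k : ℝ) + 1)) := Real.rpow_pos_of_pos h0 _
    refine le_of_mul_le_mul_right ?_ h5
    rw [← h4]
    linarith

end H41SU
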