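import Pool.Agent.H41.SU.Val
import Pool.Agent.H41.SQ.Dec

set_option autoImplicit false

open Finset

namespace H41SU

/-- number of `((x,y),(x',y'),(x'',y''))` with equal differences -/
def sext (X Y : Finset ℚ) : ℕ :=
  (((X ×ˢ Y) ×ˢ (X ×ˢ Y) ×ˢ (X ×ˢ Y)).filter
    (fun p : (ℚ × ℚ) × (ℚ × ℚ) × (ℚ × ℚ) =>
      p.1.1 - p.1.2 = p.2.1.1 - p.2.1.2 ∧
        p.2.1.1 - p.2.1.2 = p.2.2.1 - p.2.2.2)).card

/-- number of pairs with difference `s` -/
def rr (X Y : Finset ℚ) (s : ℚ) : ℕ := ((X ×ˢ Y).filter (fun p : ℚ × ℚ => p.1 - p.2 = s)).card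

theorem sext_sum (X Y D : Finset ℚ) (hD : ∀ x ∈ X, ∀ y ∈ Y, x - y ∈ D) :
    sext X Y = ∑ s ∈ D, rr X Y s ^ 3 := by
  unfold sext
  rw [Finset.card_eq_sum_card_fiberwise (f := fun p : (ℚ × ℚ) × (ℚ × ℚ) × (ℚ × ℚ) =>
    p.1.1 - p.1.2) (t := D)]
  · refine Finset.sum_congr rfl (fun s _ => ?_)
    have h1 : ((((X ×ˢ Y) ×ˢ (X ×ˢ Y) ×ˢ (X ×ˢ Y)).filter
      (fun p : (ℚ × ℚ) × (ℚ × ℚ) × (ℚ × ℚ) =>
        p.1.1 - p.1.2 = p.2.1.1 - p.2.1.2 ∧
        p.2.1.1 - p.2.1.2 = p.2.2.1 - p.2.2.2)).filter (fun p => p.1.1 - p.1.2 = s))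
        = ((X ×ˢ Y).filter (fun p : ℚ × ℚ => p.1 - p.2 = s)) ×ˢ
          ((X ×ˢ Y).filter (fun p : ℚ × ℚ => p.1 - p.2 = s)) ×ˢ
          ((X ×ˢ Y).filter (fun p : ℚ × ℚ => p.1 - p.2 = s)) := by
      ext p
      simp only [Finset.mem_filter, Finset.mem_product]
      constructor
      · rintro ⟨⟨⟨h1, h2, h3⟩, h4, h5⟩, h6⟩
        exact ⟨⟨h1, h6⟩, ⟨h2, by rw [← h4, h6]⟩, ⟨h3, by rw [← h5, ← h4, h6]⟩⟩
      · rintro ⟨⟨h1, h2⟩, ⟨h3, h4⟩, h5, h6⟩
        exact ⟨⟨⟨h1, h3, h5⟩, by rw [h2, h4], by rw [h4, h6]⟩, h2⟩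
    rw [h1, Finset.card_product, Finset.card_product]
    unfold rr
    ring
  · intro p hp
    have hp' := Finset.mem_coe.mp hp
    rw [Finset.mem_filter, Finset.mem_product, Finset.mem_product, Finset.mem_product] at hp'
    exact Finset.mem_coe.mpr (hD _ hp'.1.1.1 _ hp'.1.1.2)

/-- the map of a triple to its two differences -/
def dd (x : ℚ × ℚ × ℚ) : ℚ × ℚ := (x.1 - x.2.1, x.1 - x.2.2)

theorem sext_cross (X Y : Finset ℚ) : sext X Y =
    (((X ×ˢ X ×ˢ X) ×ˢ (Y ×ˢ Y ×ˢ Y)).filter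
      (fun z : (ℚ × ℚ × ℚ) × (ℚ × ℚ × ℚ) => dd z.1 = dd z.2)).card := by
  unfold sext
  apply Finset.card_nbij'
    (fun p => ((p.1.1, p.2.1.1, p.2.2.1), (p.1.2, p.2.1.2, p.2.2.2)))
    (fun z => ((z.1.1, z.2.1), (z.1.2.1, z.2.2.1), (z.1.2.2, z.2.2.2)))
  · intro p hp
    have hp' := Finset.mem_coe.mp hp
    simp only [Finset.mem_filter, Finset.mem_product] at hp'
    obtain ⟨⟨⟨h1, h2⟩, ⟨h3, h4⟩, h5, h6⟩, h7, h8⟩ := hp'
    apply Finset.mem_coe.mpr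
    simp only [Finset.mem_filter, Finset.mem_product, dd, Prod.mk.injEq]
    refine ⟨⟨⟨h1, h3, h5⟩, h2, h4, h6⟩, ?_, ?_⟩
    · linarith
    · linarith
  · intro z hz
    have hz' := Finset.mem_coe.mp hz
    simp only [Finset.mem_filter, Finset.mem_product, dd, Prod.mk.injEq] at hz'
    obtain ⟨⟨⟨h1, h3, h5⟩, h2, h4, h6⟩, h7, h8⟩ := hz'
    apply Finset.mem_coe.mpr
    simp only [Finset.mem_filter, Finset.mem_product]
    refine ⟨⟨⟨h1, h2⟩, ⟨h3, h4⟩, h5, h6⟩, ?_, ?_⟩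
    · linarith
    · linarith
  · intro p _; rfl
  · intro z _; rfl

theorem sext_mixed (X Y : Finset ℚ) :
    (sext X Y : ℝ) ≤ Real.sqrt (sext X X) * Real.sqrt (sext Y Y) := by
  rw [sext_cross X Y, sext_cross X X, sext_cross Y Y]
  exact H41SQ.cross_le (X ×ˢ X ×ˢ X) (Y ×ˢ Y ×ˢ Y) dd dd

theorem mink {D J : Type*} [DecidableEq J] (s : Finset D) (I : Finset J) (f : J → D → ℝ)
    (hf : ∀ j d, 0 ≤ f j d) :
    (∑ d ∈ s, (∑ j ∈ I, f j d) ^ (3 : ℝ)) ^ ((1 : ℝ) / 3)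
      ≤ ∑ j ∈ I, (∑ d ∈ s, f j d ^ (3 : ℝ)) ^ ((1 : ℝ) / 3) := by
  induction I using Finset.induction_on with
  | empty =>
    simp only [Finset.sum_empty]
    rw [Real.zero_rpow (by norm_num : (3 : ℝ) ≠ 0), Finset.sum_const_zero,
      Real.zero_rpow (by norm_num)]
  | insert a I ha ih =>
    rw [Finset.sum_insert ha]
    have h1 : ∀ d ∈ s, (∑ j ∈ insert a I, f j d) ^ (3 : ℝ) = (f a d + ∑ j ∈ I, f j d) ^ (3 : ℝ) := by
      intro d _
      rw [Finset.sum_insert ha]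
    rw [Finset.sum_congr rfl h1]
    refine (Real.Lp_add_le_of_nonneg (p := 3) s (by norm_num) (fun d _ => hf a d)
      (fun d _ => Finset.sum_nonneg (fun j _ => hf j d))).trans ?_
    exact add_le_add_right ih _

/-- decoupling for the third moment at one prime -/
theorem third_dec (p : ℕ) [hp : Fact p.Prime] (A : Finset ℚ) :
    (sext A A : ℝ) ^ ((1 : ℝ) / 3) ≤ 7 * ∑ j ∈ A.image (padicNorm p),
      (sext (A.filter (fun a => padicNorm p a = j)) (A.filter (fun a => padicNorm p a = j)) : ℝ) ^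
        ((1 : ℝ) / 3) := by
  obtain ⟨D, hD⟩ : ∃ D : Finset ℚ, D = (A ×ˢ A).image (fun q : ℚ × ℚ => q.1 - q.2) := ⟨_, rfl⟩
  have hDm : ∀ x ∈ A, ∀ y ∈ A, x - y ∈ D := by
    intro x hx y hy
    rw [hD]
    exact Finset.mem_image.mpr ⟨(x, y), Finset.mem_product.mpr ⟨hx, hy⟩, rfl⟩
  obtain ⟨B, hB⟩ : ∃ B : ℚ → Finset ℚ, B = fun j => A.filter (fun a => padicNorm p a = j) :=
    ⟨_, rfl⟩
  have hBA : ∀ j, B j ⊆ A := fun j => by rw [hB]; exact Finset.filter_subset _ _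
  obtain ⟨I, hI⟩ : ∃ I : Finset ℚ, I = A.image (padicNorm p) := ⟨_, rfl⟩
  obtain ⟨E, hE⟩ : ∃ E : ℝ, E = (sext A A : ℝ) := ⟨_, rfl⟩
  obtain ⟨e, he⟩ : ∃ e : ℚ → ℝ, e = fun j => (sext (B j) (B j) : ℝ) ^ ((1 : ℝ) / 3) := ⟨_, rfl⟩
  have he0 : ∀ j, 0 ≤ e j := fun j => by rw [he]; exact Real.rpow_nonneg (Nat.cast_nonneg _) _
  have hE0 : 0 ≤ E := by rw [hE]; exact Nat.cast_nonneg _
  obtain ⟨s, hs⟩ : ∃ s : ℝ, s = ∑ j ∈ I, e j := ⟨_, rfl⟩
  have hs0 : 0 ≤ s := by rw [hs]; exact Finset.sum_nonneg (fun j _ => he0 j)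
  -- pointwise bound
  have hpt : ∀ d ∈ D, (rr A A d : ℝ) ≤ ∑ j ∈ I, (rr (B j) (B j) d : ℝ)
      + (rr A (B (padicNorm p d)) d : ℝ) + (rr (B (padicNorm p d)) A d : ℝ) := by
    intro d _
    have hsub : (A ×ˢ A).filter (fun q : ℚ × ℚ => q.1 - q.2 = d) ⊆
        (I.biUnion (fun j => ((B j) ×ˢ (B j)).filter (fun q : ℚ × ℚ => q.1 - q.2 = d))) ∪
        ((A ×ˢ (B (padicNorm p d))).filter (fun q : ℚ × ℚ => q.1 - q.2 = d)) ∪
        (((B (padicNorm p d)) ×ˢ A).filter (fun q : ℚ × ℚ => q.1 - q.2 = d)) := by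
      intro q hq
      rw [Finset.mem_filter, Finset.mem_product] at hq
      obtain ⟨⟨h1, h2⟩, h3⟩ := hq
      rw [Finset.mem_union, Finset.mem_union, Finset.mem_biUnion]
      rcases lt_trichotomy (padicNorm p q.1) (padicNorm p q.2) with h | h | h
      · left; right
        have h4 : padicNorm p d = padicNorm p q.2 := by
          rw [← h3, sub_eq_add_neg, padicNorm.add_eq_max_of_ne (by rw [padicNorm.neg]; exact h.ne),
            padicNorm.neg, max_eq_right h.le]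
        rw [Finset.mem_filter, Finset.mem_product, h4, hB]
        exact ⟨⟨h1, Finset.mem_filter.mpr ⟨h2, rfl⟩⟩, h3⟩
      · left; left
        refine ⟨padicNorm p q.1, ?_, ?_⟩
        · rw [hI]; exact Finset.mem_image_of_mem _ h1
        · rw [Finset.mem_filter, Finset.mem_product, hB]
          exact ⟨⟨Finset.mem_filter.mpr ⟨h1, rfl⟩, Finset.mem_filter.mpr ⟨h2, h.symm⟩⟩, h3⟩
      · right
        have h4 : padicNorm p d = padicNorm p q.1 := by
          rw [← h3, sub_eq_add_neg, padicNorm.add_eq_max_of_ne (by rw [padicNorm.neg]; exact h.ne'),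
            padicNorm.neg, max_eq_left h.le]
        rw [Finset.mem_filter, Finset.mem_product, h4, hB]
        exact ⟨⟨Finset.mem_filter.mpr ⟨h1, rfl⟩, h2⟩, h3⟩
    have h1 := Finset.card_le_card hsub
    have h2 : rr A A d ≤ ∑ j ∈ I, rr (B j) (B j) d + rr A (B (padicNorm p d)) d
        + rr (B (padicNorm p d)) A d := by
      refine h1.trans ((Finset.card_union_le _ _).trans ?_)
      refine Nat.add_le_add_right ((Finset.card_union_le _ _).trans ?_) _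
      exact Nat.add_le_add_right Finset.card_biUnion_le _
    exact_mod_cast h2
  -- the sum of cubes
  have hcube : ∀ x y z : ℝ, 0 ≤ x → 0 ≤ y → 0 ≤ z →
      (x + y + z) ^ 3 ≤ 9 * (x ^ 3 + y ^ 3 + z ^ 3) := by
    intro x y z hx hy hz
    nlinarith [mul_nonneg hx hy, mul_nonneg hy hz, mul_nonneg hx hz, sq_nonneg (x - y),
      sq_nonneg (y - z), sq_nonneg (x - z), mul_nonneg (add_nonneg hx hy) (sq_nonneg (x - y)),
      mul_nonneg (add_nonneg hy hz) (sq_nonneg (y - z)),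
      mul_nonneg (add_nonneg hx hz) (sq_nonneg (x - z)),
      mul_nonneg hx (sq_nonneg (y - z)), mul_nonneg hy (sq_nonneg (x - z)),
      mul_nonneg hz (sq_nonneg (x - y)), mul_nonneg hx (sq_nonneg (x - y)),
      mul_nonneg hx (sq_nonneg (x - z)), mul_nonneg hy (sq_nonneg (y - x)),
      mul_nonneg hy (sq_nonneg (y - z)), mul_nonneg hz (sq_nonneg (z - x)),
      mul_nonneg hz (sq_nonneg (z - y))]
  have hE1 : E = ∑ d ∈ D, (rr A A d : ℝ) ^ 3 := by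
    rw [hE, sext_sum A A D hDm]
    push_cast
    rfl
  have hE2 : E ≤ 9 * (∑ d ∈ D, (∑ j ∈ I, (rr (B j) (B j) d : ℝ)) ^ 3
      + ∑ d ∈ D, (rr A (B (padicNorm p d)) d : ℝ) ^ 3
      + ∑ d ∈ D, (rr (B (padicNorm p d)) A d : ℝ) ^ 3) := by
    rw [hE1, ← Finset.sum_add_distrib, ← Finset.sum_add_distrib, Finset.mul_sum]
    refine Finset.sum_le_sum (fun d hd => ?_)
    refine (pow_le_pow_left₀ (Nat.cast_nonneg _) (hpt d hd) 3).trans ?_
    exact hcube _ _ _ (Finset.sum_nonneg (fun j _ => Nat.cast_nonneg _)) (Nat.cast_nonneg _)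
      (Nat.cast_nonneg _)
  -- first term
  have hT1 : ∑ d ∈ D, (∑ j ∈ I, (rr (B j) (B j) d : ℝ)) ^ 3 ≤ s ^ 3 := by
    have h1 := mink D I (fun j d => (rr (B j) (B j) d : ℝ)) (fun j d => Nat.cast_nonneg _)
    have e3 : ∀ x : ℝ, x ^ (3 : ℝ) = x ^ 3 := by
      intro x
      have := Real.rpow_natCast x 3
      push_cast at this
      exact this
    simp only [e3] at h1
    have h2 : ∀ j ∈ I, (∑ d ∈ D, (rr (B j) (B j) d : ℝ) ^ 3) ^ ((1 : ℝ) / 3) = e j := by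
      intro j _
      rw [he]
      simp only
      rw [sext_sum (B j) (B j) D (fun x hx y hy => hDm x (hBA j hx) y (hBA j hy))]
      push_cast
      rfl
    rw [Finset.sum_congr rfl h2, ← hs] at h1
    obtain ⟨Z, hZ⟩ : ∃ Z : ℝ, Z = ∑ d ∈ D, (∑ j ∈ I, (rr (B j) (B j) d : ℝ)) ^ 3 := ⟨_, rfl⟩
    rw [← hZ] at h1 ⊢
    have hZ0 : 0 ≤ Z := by
      rw [hZ]
      exact Finset.sum_nonneg (fun d _ => pow_nonneg (Finset.sum_nonneg
        (fun j _ => Nat.cast_nonneg _)) 3)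
    have h3 := pow_le_pow_left₀ (Real.rpow_nonneg hZ0 _) h1 3
    have h4 : (Z ^ ((1 : ℝ) / 3)) ^ 3 = Z := by
      rw [← Real.rpow_natCast, ← Real.rpow_mul hZ0]
      norm_num
    rwa [h4] at h3
  -- second and third terms
  have hsq : ∀ j ∈ I, Real.sqrt (sext (B j) (B j)) ≤ e j * Real.sqrt s := by
    intro j hj
    have h1 : ((sext (B j) (B j) : ℕ) : ℝ) = e j ^ 3 := by
      rw [he]
      simp only
      rw [← Real.rpow_natCast, ← Real.rpow_mul (Nat.cast_nonneg _)]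
      norm_num
    have h2 : e j ≤ s := by
      rw [hs]
      exact Finset.single_le_sum (f := e) (fun i _ => he0 i) hj
    rw [h1]
    apply Real.sqrt_le_iff.mpr
    refine ⟨mul_nonneg (he0 j) (Real.sqrt_nonneg _), ?_⟩
    rw [mul_pow, Real.sq_sqrt hs0]
    have : e j ^ 3 = e j ^ 2 * e j := by ring
    rw [this]
    exact mul_le_mul_of_nonneg_left h2 (sq_nonneg _)
  have hsum : ∑ j ∈ I, Real.sqrt (sext (B j) (B j)) ≤ s * Real.sqrt s := by
    refine (Finset.sum_le_sum hsq).trans (le_of_eq ?_)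
    rw [← Finset.sum_mul, ← hs]
  have hfib : ∀ (g : ℚ → ℚ → ℝ), (∀ j d, 0 ≤ g j d) → (∀ j d, j ∉ I → g j d = 0) →
      ∑ d ∈ D, g (padicNorm p d) d ≤ ∑ j ∈ I, ∑ d ∈ D, g j d := by
    intro g hg hg0
    rw [Finset.sum_comm]
    refine Finset.sum_le_sum (fun d _ => ?_)
    by_cases h : padicNorm p d ∈ I
    · exact Finset.single_le_sum (f := fun j => g j d) (fun j _ => hg j d) h
    · rw [hg0 _ _ h]
      exact Finset.sum_nonneg (fun j _ => hg j d)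
  have hBe : ∀ j, j ∉ I → B j = ∅ := by
    intro j hj
    rw [hB]
    simp only
    rw [Finset.filter_eq_empty_iff]
    intro a ha hja
    exact hj (by rw [hI]; exact Finset.mem_image.mpr ⟨a, ha, hja⟩)
  have hT2 : ∑ d ∈ D, (rr A (B (padicNorm p d)) d : ℝ) ^ 3 ≤ Real.sqrt E * (s * Real.sqrt s) := by
    refine (hfib (fun j d => (rr A (B j) d : ℝ) ^ 3) (fun j d => by positivity) ?_).trans ?_
    · intro j d hj
      simp [rr, hBe j hj]
    · have h1 : ∀ j ∈ I, ∑ d ∈ D, (rr A (B j) d : ℝ) ^ 3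
          ≤ Real.sqrt E * Real.sqrt (sext (B j) (B j)) := by
        intro j _
        have h2 := sext_mixed A (B j)
        rw [sext_sum A (B j) D (fun x hx y hy => hDm x hx y (hBA j hy)), ← hE] at h2
        push_cast at h2
        exact h2
      refine (Finset.sum_le_sum h1).trans ?_
      rw [← Finset.mul_sum]
      exact mul_le_mul_of_nonneg_left hsum (Real.sqrt_nonneg _)
  have hT3 : ∑ d ∈ D, (rr (B (padicNorm p d)) A d : ℝ) ^ 3 ≤ Real.sqrt E * (s * Real.sqrt s) := by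
    refine (hfib (fun j d => (rr (B j) A d : ℝ) ^ 3) (fun j d => by positivity) ?_).trans ?_
    · intro j d hj
      simp [rr, hBe j hj]
    · have h1 : ∀ j ∈ I, ∑ d ∈ D, (rr (B j) A d : ℝ) ^ 3
          ≤ Real.sqrt E * Real.sqrt (sext (B j) (B j)) := by
        intro j _
        have h2 := sext_mixed (B j) A
        rw [sext_sum (B j) A D (fun x hx y hy => hDm x (hBA j hx) y hy), ← hE, mul_comm] at h2
        push_cast at h2
        exact h2
      refine (Finset.sum_le_sum h1).trans ?_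
      rw [← Finset.mul_sum]
      exact mul_le_mul_of_nonneg_left hsum (Real.sqrt_nonneg _)
  -- conclusion
  obtain ⟨y, hy⟩ : ∃ y : ℝ, y = Real.sqrt E := ⟨_, rfl⟩
  obtain ⟨w, hw⟩ : ∃ w : ℝ, w = s * Real.sqrt s := ⟨_, rfl⟩
  have hy0 : 0 ≤ y := by rw [hy]; exact Real.sqrt_nonneg _
  have hw0 : 0 ≤ w := by rw [hw]; exact mul_nonneg hs0 (Real.sqrt_nonneg _)
  have hy2 : y ^ 2 = E := by rw [hy]; exact Real.sq_sqrt hE0
  have hw2 : w ^ 2 = s ^ 3 := by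
    rw [hw, mul_pow, Real.sq_sqrt hs0]; ring
  have hfin : y ^ 2 ≤ 9 * (w ^ 2 + y * w + y * w) := by
    rw [hy2, hw2]
    refine hE2.trans ?_
    rw [← hy, ← hw] at hT2 hT3
    linarith
  have hyw : y ≤ 18.5 * w := by
    by_contra hc
    push Not at hc
    nlinarith
  have hEs : E ≤ (7 * s) ^ 3 := by
    have h1 : y ^ 2 ≤ (18.5 * w) ^ 2 := pow_le_pow_left₀ hy0 hyw 2
    have h2 : (18.5 * w) ^ 2 = 342.25 * w ^ 2 := by ring
    rw [hy2, h2, hw2] at h1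
    have h3 : (7 * s) ^ 3 = 343 * s ^ 3 := by ring
    rw [h3]
    have h4 : 0 ≤ s ^ 3 := pow_nonneg hs0 3
    linarith
  have h5 := Real.rpow_le_rpow hE0 hEs (by norm_num : (0 : ℝ) ≤ (1 : ℝ) / 3)
  have h6 : ((7 * s) ^ 3) ^ ((1 : ℝ) / 3) = 7 * s := by
    rw [← Real.rpow_natCast, ← Real.rpow_mul (by positivity)]
    norm_num
  rw [h6, hE, hs, he, hI] at h5
  simp only [hB] at h5
  exact h5

end H41SU
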