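import Pool.Agent.H41.SU.Main
import Pool.Agent.H41.SU.Thr
import Pool.Agent.H45.SR.Tr

set_option autoImplicit false

open Finset

namespace H41SU

/-- induction over the primes of `S` for a functional that decouples at every prime -/
theorem sunit_gen (F : Finset ℚ → ℝ) (B c θ : ℝ) (hB : 0 ≤ B) (hc : 0 ≤ c) (hθ : 1 ≤ θ)
    (dec : ∀ (p : ℕ) [Fact p.Prime] (A : Finset ℚ), F A ≤ B * ∑ j ∈ A.image (padicNorm p),
      F (A.filter (fun a => padicNorm p a = j)))
    (H Q : ℕ) (hQ : 1 ≤ Q)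
    (base : ∀ (r : ℚ) (A : Finset ℚ), r ≠ 0 →
      (∀ a ∈ A, ∃ x : ℚ, |x.num| ≤ (H : ℤ) ∧ x.den ≤ Q ∧ a = (r * x) ^ 2) →
      F A ≤ c * (A.card : ℝ) ^ θ)
    (S : Finset ℕ) (hS : ∀ p ∈ S, p.Prime) :
    ∀ (r : ℚ) (A : Finset ℚ), r ≠ 0 →
      (∀ a ∈ A, ∃ (e : ℕ → ℤ) (x : ℚ), |x.num| ≤ (H : ℤ) ∧ x.den ≤ Q ∧
        a = (r * (∏ p ∈ S, (p : ℚ) ^ (e p)) * x) ^ 2) →
      F A ≤ B ^ S.card * (c * (A.card : ℝ) ^ θ) := by
  induction S using Finset.induction_on with
  | empty =>
    intro r A hr hA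
    rw [Finset.card_empty, pow_zero, one_mul]
    exact base r A hr (by
      intro a ha
      obtain ⟨e, x, h1, h2, h3⟩ := hA a ha
      rw [Finset.prod_empty, mul_one] at h3
      exact ⟨x, h1, h2, h3⟩)
  | insert p S hpS ih =>
    intro r A hr hA
    have hp : p.Prime := hS p (Finset.mem_insert_self _ _)
    have : Fact p.Prime := ⟨hp⟩
    have hS' : ∀ q ∈ S, q.Prime := fun q hq => hS q (Finset.mem_insert_of_mem hq)
    have ih' := ih hS'
    have hp0 : (p : ℚ) ≠ 0 := by exact_mod_cast hp.ne_zero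
    have hp1 : (1 : ℚ) < p := by exact_mod_cast hp.one_lt
    have hcl : ∀ j ∈ A.image (padicNorm p),
        F (A.filter (fun a => padicNorm p a = j))
        ≤ B ^ S.card * (c * ((A.filter (fun a => padicNorm p a = j)).card : ℝ) ^ θ) := by
      intro j _
      by_cases hj : j = 0
      · refine ih' 1 _ one_ne_zero ?_
        intro a ha
        rw [Finset.mem_filter, hj] at ha
        have h0 : a = 0 := padicNorm.zero_of_padicNorm_eq_zero ha.2
        refine ⟨fun _ => 0, 0, by simp, by simpa using hQ, ?_⟩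
        rw [h0]
        simp
      · have hst : ∀ a ∈ A.filter (fun a => padicNorm p a = j), ∃ (e : ℕ → ℤ) (w : ℤ) (x : ℚ),
            |x.num| ≤ (H : ℤ) ∧ x.den ≤ Q ∧
            a = (r * (p : ℚ) ^ w * (∏ q ∈ S, (q : ℚ) ^ (e q)) * x) ^ 2 ∧
            j = (padicNorm p r * (p : ℚ) ^ (-w)) ^ 2 := by
          intro a ha
          rw [Finset.mem_filter] at ha
          obtain ⟨ha, haj⟩ := ha
          obtain ⟨e, x, h1, h2, h3⟩ := hA a ha
          have ha0 : a ≠ 0 := by
            rintro rfl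
            apply hj
            rw [← haj]; simp
          have hx0 : x ≠ 0 := by
            rintro rfl
            apply ha0
            rw [h3]; simp
          obtain ⟨v, x', g1, g2, g3, g4⟩ := strip3 p x hx0
          have h5 : a = (r * (p : ℚ) ^ (e p + v) * (∏ q ∈ S, (q : ℚ) ^ (e q)) * x') ^ 2 := by
            rw [h3, g1, Finset.prod_insert hpS, zpow_add₀ hp0]
            ring
          refine ⟨e, e p + v, x', g3.trans h1, g4.trans h2, h5, ?_⟩
          rw [← haj, h5, pow_two, padicNorm.mul, padicNorm.mul, padicNorm.mul, padicNorm.mul, g2,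
            pn_prod p S hS' hpS e, pn_zpow]
          ring
        by_cases hne : (A.filter (fun a => padicNorm p a = j)).Nonempty
        · obtain ⟨a0, ha0⟩ := hne
          obtain ⟨e0, w0, x0, _, _, _, hj0⟩ := hst a0 ha0
          refine ih' (r * (p : ℚ) ^ w0) _ (mul_ne_zero hr (zpow_ne_zero _ hp0)) ?_
          intro a ha
          obtain ⟨e, w, x, h1, h2, h3, h4⟩ := hst a ha
          have hw : w = w0 := by
            rw [hj0] at h4
            have hrn : 0 < padicNorm p r := lt_of_le_of_ne (padicNorm.nonneg r) (by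
              intro h
              exact hr (padicNorm.zero_of_padicNorm_eq_zero h.symm))
            have hpp : (0 : ℚ) < p := by linarith
            have a1 : 0 ≤ padicNorm p r * (p : ℚ) ^ (-w0) := by positivity
            have a2 : 0 ≤ padicNorm p r * (p : ℚ) ^ (-w) := by positivity
            have e3 := (pow_left_inj₀ a1 a2 two_ne_zero).mp h4
            have e5 := mul_left_cancel₀ hrn.ne' e3
            have e6 := zpow_right_injective₀ hpp hp1.ne' e5
            linarith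
          refine ⟨e, x, h1, h2, ?_⟩
          rw [h3, hw]
        · rw [Finset.not_nonempty_iff_eq_empty] at hne
          rw [hne]
          exact ih' 1 ∅ one_ne_zero (fun a ha => absurd ha (Finset.notMem_empty a))
    refine (dec p A).trans ?_
    rw [Finset.card_insert_of_notMem hpS, pow_succ']
    rw [mul_assoc]
    refine mul_le_mul_of_nonneg_left ?_ hB
    refine (Finset.sum_le_sum hcl).trans ?_
    rw [← Finset.mul_sum, ← Finset.mul_sum]
    refine mul_le_mul_of_nonneg_left ?_ (pow_nonneg hB _)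
    exact mul_le_mul_of_nonneg_left (sum_classes A (padicNorm p) θ hθ) hc

/-- third moment, `S`-unit form -/
theorem third_sunit (S : Finset ℕ) (hS : ∀ p ∈ S, p.Prime) (H Q : ℕ) (r : ℚ) (A : Finset ℚ)
    (hH : 2 ≤ H) (hQ : 1 ≤ Q) (hr : r ≠ 0)
    (hA : ∀ a ∈ A, ∃ (e : ℕ → ℤ) (x : ℚ), |x.num| ≤ (H : ℤ) ∧ x.den ≤ Q ∧
        a = (r * (∏ p ∈ S, (p : ℚ) ^ (e p)) * x) ^ 2) :
    (sext A A : ℝ) ≤ (7 ^ S.card * (40000 * Real.log ((H : ℝ) * Q)) * (A.card : ℝ)) ^ 3 := by
  have hHr : (2 : ℝ) ≤ H := by exact_mod_cast hH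
  have hQr : (1 : ℝ) ≤ Q := by exact_mod_cast hQ
  have hl : 0 ≤ 40000 * Real.log ((H : ℝ) * Q) := by
    have : 0 ≤ Real.log ((H : ℝ) * Q) := Real.log_nonneg (by nlinarith)
    linarith
  have e13 : ∀ x : ℝ, 0 ≤ x → (x ^ 3) ^ ((1 : ℝ) / 3) = x := by
    intro x hx
    rw [← Real.rpow_natCast, ← Real.rpow_mul hx]
    norm_num
  have h := sunit_gen (fun A => (sext A A : ℝ) ^ ((1 : ℝ) / 3)) 7 (40000 * Real.log ((H : ℝ) * Q)) 1
    (by norm_num) hl le_rfl (fun p _ A => third_dec p A) H Q hQ (by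
      intro r A hr hA
      obtain ⟨A', hA', eA, cA⟩ := H45SR.descend H Q r A hr hA
      have hr0 : r ^ 2 ≠ 0 := pow_ne_zero 2 hr
      have h1 := H45SR.third_image A' (r ^ 2) hr0 A eA
      have h2 := H45SR.third_log H Q hH hQ A' hA'
      rw [cA] at h2
      have h3 : (sext A A : ℝ) ≤ (40000 * Real.log ((H : ℝ) * Q) * (A.card : ℝ)) ^ 3 := by
        rw [mul_pow]
        refine le_trans ?_ h2
        exact_mod_cast h1
      have h4 := Real.rpow_le_rpow (Nat.cast_nonneg _) h3 (by norm_num : (0 : ℝ) ≤ (1 : ℝ) / 3)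
      rw [e13 _ (mul_nonneg hl (Nat.cast_nonneg _))] at h4
      rw [Real.rpow_one]
      exact h4) S hS r A hr hA
  simp only [Real.rpow_one] at h
  have h5 := pow_le_pow_left₀ (Real.rpow_nonneg (Nat.cast_nonneg _) _) h 3
  have h6 : ((sext A A : ℝ) ^ ((1 : ℝ) / 3)) ^ 3 = sext A A := by
    rw [← Real.rpow_natCast, ← Real.rpow_mul (Nat.cast_nonneg _)]
    norm_num
  rw [h6] at h5
  refine h5.trans (le_of_eq ?_)
  ring

end H41SU
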