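import Mathlib

set_option autoImplicit false

open Finset

namespace H41SU

/-- exponential sum over `X`, elements mapped to `ZMod M` by `φ` -/
noncomputable def ex (M : ℕ) [NeZero M] (φ : ℚ → ZMod M) (X : Finset ℚ) (t : ZMod M) : ℂ :=
  ∑ x ∈ X, ZMod.stdAddChar (t * φ x)

/-- number of tuples in the box `Z` with vanishing signed sum of images -/
def cnt {ι : Type*} [Fintype ι] [DecidableEq ι] (M : ℕ) (φ : ℚ → ZMod M) (ε : ι → ZMod M)
    (Z : ι → Finset ℚ) : ℕ :=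
  ((Fintype.piFinset Z).filter (fun z : ι → ℚ => ∑ l, ε l * φ (z l) = 0)).card

theorem char_sum {ι : Type*} [DecidableEq ι] {R : Type*} [AddCommMonoid R] (ψ : AddChar R ℂ)
    (s : Finset ι) (c : ι → R) : ψ (∑ l ∈ s, c l) = ∏ l ∈ s, ψ (c l) := by
  induction s using Finset.induction_on with
  | empty => simp
  | insert a s ha ih => rw [Finset.sum_insert ha, Finset.prod_insert ha, AddChar.map_add_eq_mul, ih]

theorem cnt_eq {ι : Type*} [Fintype ι] [DecidableEq ι] (M : ℕ) [NeZero M] (φ : ℚ → ZMod M)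
    (ε : ι → ZMod M) (Z : ι → Finset ℚ) :
    ((M : ℂ) * (cnt M φ ε Z : ℂ))
      = ∑ t : ZMod M, ∏ l, ∑ x ∈ Z l, ZMod.stdAddChar (t * (ε l * φ x)) := by
  have h1 : ∀ t : ZMod M, ∏ l, ∑ x ∈ Z l, (ZMod.stdAddChar (t * (ε l * φ x)) : ℂ)
      = ∑ z ∈ Fintype.piFinset Z, ZMod.stdAddChar (t * ∑ l, ε l * φ (z l)) := by
    intro t
    rw [Finset.prod_univ_sum]
    refine Finset.sum_congr rfl (fun z _ => ?_)
    rw [Finset.mul_sum, char_sum]
  rw [Finset.sum_congr rfl (fun t _ => h1 t), Finset.sum_comm]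
  have h2 : ∀ z ∈ Fintype.piFinset Z,
      ∑ t : ZMod M, (ZMod.stdAddChar (t * ∑ l, ε l * φ (z l)) : ℂ)
      = if ∑ l, ε l * φ (z l) = 0 then (M : ℂ) else 0 := by
    intro z _
    rw [AddChar.sum_mulShift _ (ZMod.isPrimitive_stdAddChar M), ZMod.card]
    split_ifs <;> simp
  rw [Finset.sum_congr rfl h2, ← Finset.sum_filter, Finset.sum_const, nsmul_eq_mul, mul_comm]
  rfl

theorem ex_neg (M : ℕ) [NeZero M] (φ : ℚ → ZMod M) (X : Finset ℚ) (t : ZMod M) :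
    ∑ x ∈ X, (ZMod.stdAddChar (t * ((-1) * φ x)) : ℂ) = (starRingEnd ℂ) (ex M φ X t) := by
  unfold ex
  rw [map_sum]
  refine Finset.sum_congr rfl (fun x _ => ?_)
  have e : t * ((-1) * φ x) = -(t * φ x) := by ring
  rw [e, AddChar.map_neg_eq_conj]

/-- signs on `m + m` positions -/
def sg (m M : ℕ) : Fin m ⊕ Fin m → ZMod M := Sum.elim (fun _ => 1) (fun _ => -1)

theorem norm_factor {m : ℕ} (M : ℕ) [NeZero M] (φ : ℚ → ZMod M) (X : Finset ℚ) (t : ZMod M)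
    (l : Fin m ⊕ Fin m) :
    ‖∑ x ∈ X, (ZMod.stdAddChar (t * (sg m M l * φ x)) : ℂ)‖ = ‖ex M φ X t‖ := by
  cases l with
  | inl i =>
    simp only [sg, Sum.elim_inl, one_mul]
    rfl
  | inr i =>
    simp only [sg, Sum.elim_inr]
    rw [ex_neg, RCLike.norm_conj]

theorem cnt_le {m : ℕ} (M : ℕ) [NeZero M] (φ : ℚ → ZMod M) (Z : Fin m ⊕ Fin m → Finset ℚ) :
    (M : ℝ) * (cnt M φ (sg m M) Z : ℝ) ≤ ∑ t : ZMod M, ∏ l, ‖ex M φ (Z l) t‖ := by
  have h := cnt_eq M φ (sg m M) Z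
  have h2 : (M : ℝ) * (cnt M φ (sg m M) Z : ℝ)
      = ‖((M : ℂ) * (cnt M φ (sg m M) Z : ℂ))‖ := by
    rw [norm_mul, Complex.norm_natCast, Complex.norm_natCast]
  rw [h2, h]
  refine (norm_sum_le _ _).trans (Finset.sum_le_sum (fun t _ => ?_))
  rw [norm_prod]
  exact le_of_eq (Finset.prod_congr rfl (fun l _ => norm_factor M φ (Z l) t l))

theorem cnt_const {m : ℕ} (M : ℕ) [NeZero M] (φ : ℚ → ZMod M) (X : Finset ℚ) :
    (M : ℝ) * (cnt M φ (sg m M) (fun _ => X) : ℝ) = ∑ t : ZMod M, ‖ex M φ X t‖ ^ (2 * m) := by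
  have h := cnt_eq M φ (sg m M) (fun _ => X)
  have h2 : ∀ t : ZMod M, ∏ l : Fin m ⊕ Fin m,
      ∑ x ∈ X, (ZMod.stdAddChar (t * (sg m M l * φ x)) : ℂ)
      = ((‖ex M φ X t‖ ^ (2 * m) : ℝ) : ℂ) := by
    intro t
    rw [Fintype.prod_sum_type]
    have e1 : ∀ i : Fin m, ∑ x ∈ X, (ZMod.stdAddChar (t * (sg m M (Sum.inl i) * φ x)) : ℂ)
        = ex M φ X t := by
      intro i
      simp only [sg, Sum.elim_inl, one_mul]
      rfl
    have e2 : ∀ i : Fin m, ∑ x ∈ X, (ZMod.stdAddChar (t * (sg m M (Sum.inr i) * φ x)) : ℂ)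
        = (starRingEnd ℂ) (ex M φ X t) := by
      intro i
      simp only [sg, Sum.elim_inr]
      exact ex_neg M φ X t
    rw [Finset.prod_congr rfl (fun i _ => e1 i), Finset.prod_congr rfl (fun i _ => e2 i),
      Finset.prod_const, Finset.prod_const, Finset.card_univ, Fintype.card_fin, ← mul_pow,
      Complex.mul_conj, Complex.normSq_eq_norm_sq, pow_mul]
    push_cast
    rfl
  rw [Finset.sum_congr rfl (fun t _ => h2 t)] at h
  have h3 : (((M : ℝ) * (cnt M φ (sg m M) (fun _ => X) : ℝ) : ℝ) : ℂ)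
      = ((∑ t : ZMod M, ‖ex M φ X t‖ ^ (2 * m) : ℝ) : ℂ) := by
    push_cast
    push_cast at h
    exact h
  exact_mod_cast h3

end H41SU
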