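import Pool.Agent.H41.SU.Hol

set_option autoImplicit false

open Finset

namespace H41SU

/-- rational signs on `m + m` positions -/
def sr (m : ℕ) : Fin m ⊕ Fin m → ℚ := Sum.elim (fun _ => 1) (fun _ => -1)

/-- number of tuples in the box `Z` with vanishing signed sum -/
def TT (m : ℕ) (Z : Fin m ⊕ Fin m → Finset ℚ) : ℕ :=
  ((Fintype.piFinset Z).filter (fun z : Fin m ⊕ Fin m → ℚ => ∑ l, sr m l * z l = 0)).card

theorem embed (m : ℕ) (A : Finset ℚ) : ∃ (M : ℕ) (_ : NeZero M) (φ : ℚ → ZMod M),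
    ∀ z : Fin m ⊕ Fin m → ℚ, (∀ l, z l ∈ A) →
      (∑ l, sg m M l * φ (z l) = 0 ↔ ∑ l, sr m l * z l = 0) := by
  obtain ⟨D, hD⟩ : ∃ D : ℕ, D = ∏ a ∈ A, a.den := ⟨_, rfl⟩
  have hD0 : D ≠ 0 := by
    rw [hD]
    exact Finset.prod_ne_zero_iff.mpr (fun a _ => a.den_pos.ne')
  have hDq : (D : ℚ) ≠ 0 := by exact_mod_cast hD0
  obtain ⟨n, hn⟩ : ∃ n : ℚ → ℤ, n = fun a => ((D : ℚ) * a).num := ⟨_, rfl⟩
  have hna : ∀ a ∈ A, ((n a : ℤ) : ℚ) = (D : ℚ) * a := by
    intro a ha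
    have h1 : a.den ∣ D := by rw [hD]; exact Finset.dvd_prod_of_mem _ ha
    obtain ⟨c, hc⟩ := h1
    have h2 : (D : ℚ) * a = ((c * a.num : ℤ) : ℚ) := by
      have h3 : a = (a.num : ℚ) / a.den := (Rat.num_div_den a).symm
      have h4 : (a.den : ℚ) ≠ 0 := by exact_mod_cast a.den_pos.ne'
      rw [hc]
      push_cast
      conv_lhs => rw [h3]
      simp only [Rat.num_div_den]
      field_simp
      have h5 : a * a.den = a.num := Rat.mul_den_eq_num a
      linear_combination (c : ℚ) * h5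
    rw [hn]
    simp only
    rw [h2, Rat.num_intCast]
  obtain ⟨N, hN⟩ : ∃ N : ℕ, N = ∑ a ∈ A, (n a).natAbs := ⟨_, rfl⟩
  have hnN : ∀ a ∈ A, |n a| ≤ (N : ℤ) := by
    intro a ha
    have h1 : (n a).natAbs ≤ N := by
      rw [hN]
      exact Finset.single_le_sum (f := fun a => (n a).natAbs) (fun _ _ => Nat.zero_le _) ha
    rw [Int.abs_eq_natAbs]
    exact_mod_cast h1
  obtain ⟨M, hM⟩ : ∃ M : ℕ, M = (m + m) * N + 1 := ⟨_, rfl⟩
  have hM0 : NeZero M := ⟨by omega⟩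
  refine ⟨M, hM0, fun a => ((n a : ℤ) : ZMod M), ?_⟩
  intro z hz
  obtain ⟨si, hsi⟩ : ∃ si : Fin m ⊕ Fin m → ℤ, si = Sum.elim (fun _ => 1) (fun _ => -1) :=
    ⟨_, rfl⟩
  have e1 : ∑ l, sg m M l * ((n (z l) : ℤ) : ZMod M)
      = ((∑ l, si l * n (z l) : ℤ) : ZMod M) := by
    push_cast
    refine Finset.sum_congr rfl (fun l _ => ?_)
    cases l with
    | inl i => simp [sg, hsi]
    | inr i => simp [sg, hsi]
  have e2 : ((∑ l, si l * n (z l) : ℤ) : ℚ) = (D : ℚ) * ∑ l, sr m l * z l := by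
    rw [Finset.mul_sum]
    push_cast
    refine Finset.sum_congr rfl (fun l _ => ?_)
    rw [hna _ (hz l)]
    cases l with
    | inl i => simp [sr, hsi]
    | inr i => simp [sr, hsi]
  rw [e1, ZMod.intCast_zmod_eq_zero_iff_dvd]
  have hb : |∑ l, si l * n (z l)| < (M : ℤ) := by
    have h1 : |∑ l, si l * n (z l)| ≤ ∑ _l : Fin m ⊕ Fin m, (N : ℤ) := by
      refine (Finset.abs_sum_le_sum_abs _ _).trans (Finset.sum_le_sum (fun l _ => ?_))
      rw [abs_mul]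
      have h2 : |si l| = 1 := by
        cases l with
        | inl i => simp [hsi]
        | inr i => simp [hsi]
      rw [h2, one_mul]
      exact hnN _ (hz l)
    rw [Finset.sum_const, Finset.card_univ, Fintype.card_sum, Fintype.card_fin, nsmul_eq_mul] at h1
    rw [hM]
    push_cast
    push_cast at h1
    linarith
  constructor
  · intro h
    have h0 : ∑ l, si l * n (z l) = 0 := Int.eq_zero_of_abs_lt_dvd h hb
    rw [h0, Int.cast_zero] at e2
    exact (mul_eq_zero.mp e2.symm).resolve_left hDq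
  · intro h
    rw [h, mul_zero] at e2
    have h0 : ∑ l, si l * n (z l) = 0 := by exact_mod_cast e2
    rw [h0]
    exact dvd_zero _

theorem holder (k : ℕ) (hk : 1 ≤ k) {ι : Type*} (s : Finset ι) (a b : ι → ℝ)
    (ha : ∀ i, 0 ≤ a i) (hb : ∀ i, 0 ≤ b i) :
    ∑ i ∈ s, a i ^ 2 * b i ^ (2 * k)
      ≤ (∑ i ∈ s, a i ^ (2 * (k + 1))) ^ ((1 : ℝ) / ((k : ℝ) + 1)) *
        (∑ i ∈ s, b i ^ (2 * (k + 1))) ^ ((k : ℝ) / ((k : ℝ) + 1)) := by
  have hk0 : (0 : ℝ) < k := by exact_mod_cast hk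
  have hpq : ((k : ℝ) + 1).HolderConjugate (((k : ℝ) + 1) / k) := by
    rw [Real.holderConjugate_iff]
    refine ⟨by linarith, ?_⟩
    field_simp
    ring
  have h := Real.inner_le_Lp_mul_Lq s (fun i => a i ^ 2) (fun i => b i ^ (2 * k)) hpq
  have e1 : ∀ i, |a i ^ 2| ^ ((k : ℝ) + 1) = a i ^ (2 * (k + 1)) := by
    intro i
    rw [abs_of_nonneg (pow_nonneg (ha i) 2)]
    have : ((k : ℝ) + 1) = ((k + 1 : ℕ) : ℝ) := by push_cast; ring
    rw [this, Real.rpow_natCast, ← pow_mul]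
  have e2 : ∀ i, |b i ^ (2 * k)| ^ (((k : ℝ) + 1) / k) = b i ^ (2 * (k + 1)) := by
    intro i
    rw [abs_of_nonneg (pow_nonneg (hb i) _), ← Real.rpow_natCast (b i) (2 * k),
      ← Real.rpow_mul (hb i), ← Real.rpow_natCast (b i) (2 * (k + 1))]
    congr 1
    push_cast
    field_simp
  simp only [e1, e2] at h
  have e3 : 1 / (((k : ℝ) + 1) / k) = (k : ℝ) / ((k : ℝ) + 1) := by
    field_simp
  rw [e3] at h
  exact h

theorem prod_two {α : Type*} [Fintype α] [DecidableEq α] (l l' : α) (hne : l ≠ l') (x y : ℝ) :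
    ∏ i : α, (if i = l ∨ i = l' then x else y) = x ^ 2 * y ^ (Fintype.card α - 2) := by
  rw [Finset.prod_ite, Finset.prod_const, Finset.prod_const]
  have h1 : (Finset.univ.filter (fun i : α => i = l ∨ i = l')) = {l, l'} := by
    ext i
    simp
  have h2 : (Finset.univ.filter (fun i : α => ¬ (i = l ∨ i = l'))) = Finset.univ \ {l, l'} := by
    ext i
    simp
  rw [h1, h2, Finset.card_pair hne, Finset.card_sdiff_of_subset (Finset.subset_univ _),
    Finset.card_pair hne, Finset.card_univ]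

theorem mixed (k : ℕ) (hk : 1 ≤ k) (M : ℕ) [NeZero M] (φ : ℚ → ZMod M) (A B : Finset ℚ)
    (l l' : Fin (k + 1) ⊕ Fin (k + 1)) (hne : l ≠ l') :
    (cnt M φ (sg (k + 1) M) (fun i => if i = l ∨ i = l' then B else A) : ℝ)
      ≤ (cnt M φ (sg (k + 1) M) (fun _ => B) : ℝ) ^ ((1 : ℝ) / ((k : ℝ) + 1)) *
        (cnt M φ (sg (k + 1) M) (fun _ => A) : ℝ) ^ ((k : ℝ) / ((k : ℝ) + 1)) := by
  have hM : (0 : ℝ) < M := by exact_mod_cast Nat.pos_of_ne_zero (NeZero.ne M)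
  have h1 := cnt_le M φ (fun i => if i = l ∨ i = l' then B else A)
  have h2 : ∀ t : ZMod M, ∏ i, ‖ex M φ (if i = l ∨ i = l' then B else A) t‖
      = ‖ex M φ B t‖ ^ 2 * ‖ex M φ A t‖ ^ (2 * k) := by
    intro t
    have e1 : ∀ i : Fin (k + 1) ⊕ Fin (k + 1), ‖ex M φ (if i = l ∨ i = l' then B else A) t‖
        = if i = l ∨ i = l' then ‖ex M φ B t‖ else ‖ex M φ A t‖ := by
      intro i
      split_ifs <;> rfl
    rw [Finset.prod_congr rfl (fun i _ => e1 i), prod_two l l' hne]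
    congr 2
    rw [Fintype.card_sum, Fintype.card_fin]
    omega
  rw [Finset.sum_congr rfl (fun t _ => h2 t)] at h1
  have h3 := h1.trans (holder k hk Finset.univ (fun t => ‖ex M φ B t‖) (fun t => ‖ex M φ A t‖)
    (fun t => norm_nonneg _) (fun t => norm_nonneg _))
  rw [← cnt_const M φ B, ← cnt_const M φ A] at h3
  rw [Real.mul_rpow hM.le (Nat.cast_nonneg _), Real.mul_rpow hM.le (Nat.cast_nonneg _)] at h3
  have h4 : (M : ℝ) ^ ((1 : ℝ) / ((k : ℝ) + 1)) * (M : ℝ) ^ ((k : ℝ) / ((k : ℝ) + 1)) = M := by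
    rw [← Real.rpow_add hM]
    have : (1 : ℝ) / ((k : ℝ) + 1) + (k : ℝ) / ((k : ℝ) + 1) = 1 := by field_simp; ring
    rw [this, Real.rpow_one]
  refine le_of_mul_le_mul_left (h3.trans (le_of_eq ?_)) hM
  linear_combination (cnt M φ (sg (k + 1) M) (fun _ => B) : ℝ) ^ ((1 : ℝ) / ((k : ℝ) + 1)) *
        (cnt M φ (sg (k + 1) M) (fun _ => A) : ℝ) ^ ((k : ℝ) / ((k : ℝ) + 1)) * h4

end H41SU
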