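import Pool.Agent.H41.SU.Val

set_option autoImplicit false

open Finset

namespace H41SU

/-- sums over classes of a power at least one -/
theorem sum_classes {J : Type*} [DecidableEq J] (A : Finset ℚ) (κ : ℚ → J) (θ : ℝ) (hθ : 1 ≤ θ) :
    ∑ j ∈ A.image κ, ((A.filter (fun a => κ a = j)).card : ℝ) ^ θ ≤ (A.card : ℝ) ^ θ := by
  have h1 : ∀ j ∈ A.image κ, ((A.filter (fun a => κ a = j)).card : ℝ) ^ θ
      ≤ ((A.filter (fun a => κ a = j)).card : ℝ) * (A.card : ℝ) ^ (θ - 1) := by
    intro j hj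
    obtain ⟨a, ha, hja⟩ := Finset.mem_image.mp hj
    have h2 : 0 < ((A.filter (fun a => κ a = j)).card : ℝ) := by
      have : 0 < (A.filter (fun a => κ a = j)).card :=
        Finset.card_pos.mpr ⟨a, Finset.mem_filter.mpr ⟨ha, hja⟩⟩
      exact_mod_cast this
    have h3 : ((A.filter (fun a => κ a = j)).card : ℝ) ≤ A.card := by
      exact_mod_cast Finset.card_filter_le _ _
    have h4 : ((A.filter (fun a => κ a = j)).card : ℝ) ^ θ
        = ((A.filter (fun a => κ a = j)).card : ℝ) *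
          ((A.filter (fun a => κ a = j)).card : ℝ) ^ (θ - 1) := by
      conv_rhs => rw [← Real.rpow_one ((A.filter (fun a => κ a = j)).card : ℝ)]
      rw [Real.rpow_one, ← Real.rpow_one_add' h2.le (by linarith)]
      congr 1
      ring
    rw [h4]
    exact mul_le_mul_of_nonneg_left (Real.rpow_le_rpow h2.le h3 (by linarith)) h2.le
  refine (Finset.sum_le_sum h1).trans ?_
  rw [← Finset.sum_mul]
  have h5 : ∑ j ∈ A.image κ, ((A.filter (fun a => κ a = j)).card : ℝ) = A.card := by
    have := Finset.card_eq_sum_card_image κ A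
    exact_mod_cast this.symm
  rw [h5]
  by_cases h0 : (A.card : ℝ) = 0
  · rw [h0, zero_mul]
    exact Real.rpow_nonneg le_rfl _
  · have h6 : (0 : ℝ) < A.card := lt_of_le_of_ne (Nat.cast_nonneg _) (Ne.symm h0)
    rw [← Real.rpow_one_add' h6.le (by linarith)]
    have : 1 + (θ - 1) = θ := by ring
    rw [this]

theorem sunit (k : ℕ) (hk : 1 ≤ k) (H Q : ℕ) (hQ : 1 ≤ Q) (K θ : ℝ) (hK : 0 ≤ K)
    (hθ : (k : ℝ) + 1 ≤ θ)
    (base : ∀ (r : ℚ) (A : Finset ℚ), r ≠ 0 →
      (∀ a ∈ A, ∃ x : ℚ, |x.num| ≤ (H : ℤ) ∧ x.den ≤ Q ∧ a = (r * x) ^ 2) →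
      (TT (k + 1) (fun _ => A) : ℝ) ≤ K * (A.card : ℝ) ^ θ)
    (S : Finset ℕ) (hS : ∀ p ∈ S, p.Prime) :
    ∀ (r : ℚ) (A : Finset ℚ), r ≠ 0 →
      (∀ a ∈ A, ∃ (e : ℕ → ℤ) (x : ℚ), |x.num| ≤ (H : ℤ) ∧ x.den ≤ Q ∧
        a = (r * (∏ p ∈ S, (p : ℚ) ^ (e p)) * x) ^ 2) →
      (TT (k + 1) (fun _ => A) : ℝ) ^ ((1 : ℝ) / ((k : ℝ) + 1))
        ≤ (((k + 1) * (2 * k + 1) : ℕ) : ℝ) ^ S.card *
          (K ^ ((1 : ℝ) / ((k : ℝ) + 1)) * (A.card : ℝ) ^ (θ / ((k : ℝ) + 1))) := by
  have hk0 : (0 : ℝ) < (k : ℝ) + 1 := by positivity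
  induction S using Finset.induction_on with
  | empty =>
    intro r A hr hA
    rw [Finset.card_empty, pow_zero, one_mul]
    have h1 := base r A hr (by
      intro a ha
      obtain ⟨e, x, h1, h2, h3⟩ := hA a ha
      rw [Finset.prod_empty, mul_one] at h3
      exact ⟨x, h1, h2, h3⟩)
    have h2 := Real.rpow_le_rpow (Nat.cast_nonneg _) h1
      (by positivity : (0 : ℝ) ≤ (1 : ℝ) / ((k : ℝ) + 1))
    refine h2.trans (le_of_eq ?_)
    rw [Real.mul_rpow hK (Real.rpow_nonneg (Nat.cast_nonneg _) _), ← Real.rpow_mul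
      (Nat.cast_nonneg _)]
    congr 2
    ring
  | insert p S hpS ih =>
    intro r A hr hA
    have hp : p.Prime := hS p (Finset.mem_insert_self _ _)
    have : Fact p.Prime := ⟨hp⟩
    have hS' : ∀ q ∈ S, q.Prime := fun q hq => hS q (Finset.mem_insert_of_mem hq)
    have ih' := ih hS'
    have hp0 : (p : ℚ) ≠ 0 := by exact_mod_cast hp.ne_zero
    have hp1 : (1 : ℚ) < p := by exact_mod_cast hp.one_lt
    have hdec := decouple k hk A (padicNorm p) (fun z _ h => two_same p k z h)
    have hcl : ∀ j ∈ A.image (padicNorm p),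
        (TT (k + 1) (fun _ => A.filter (fun a => padicNorm p a = j)) : ℝ) ^
          ((1 : ℝ) / ((k : ℝ) + 1))
        ≤ (((k + 1) * (2 * k + 1) : ℕ) : ℝ) ^ S.card *
          (K ^ ((1 : ℝ) / ((k : ℝ) + 1)) *
            ((A.filter (fun a => padicNorm p a = j)).card : ℝ) ^ (θ / ((k : ℝ) + 1))) := by
      intro j _
      by_cases hj : j = 0
      · refine ih' 1 _ one_ne_zero ?_
        intro a ha
        rw [Finset.mem_filter, hj] at ha
        have h0 : a = 0 := padicNorm.zero_of_padicNorm_eq_zero ha.2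
        refine ⟨fun _ => 0, 0, by simp, by simpa using hQ, ?_⟩
        rw [h0]
        simp
      · -- all elements of the class have the same exponent of p
        have hst : ∀ a ∈ A.filter (fun a => padicNorm p a = j), ∃ (e : ℕ → ℤ) (w : ℤ) (x : ℚ),
            |x.num| ≤ (H : ℤ) ∧ x.den ≤ Q ∧
            a = (r * (p : ℚ) ^ w * (∏ q ∈ S, (q : ℚ) ^ (e q)) * x) ^ 2 ∧
            j = (padicNorm p r * (p : ℚ) ^ (-w)) ^ 2 := by
          intro a ha
          rw [Finset.mem_filter] at ha
          obtain ⟨ha, haj⟩ := ha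
          obtain ⟨e, x, h1, h2, h3⟩ := hA a ha
          have ha0 : a ≠ 0 := by
            rintro rfl
            apply hj
            rw [← haj]; simp
          have hx0 : x ≠ 0 := by
            rintro rfl
            apply ha0
            rw [h3]; simp
          obtain ⟨v, x', g1, g2, g3, g4⟩ := strip3 p x hx0
          have h5 : a = (r * (p : ℚ) ^ (e p + v) * (∏ q ∈ S, (q : ℚ) ^ (e q)) * x') ^ 2 := by
            rw [h3, g1, Finset.prod_insert hpS, zpow_add₀ hp0]
            ring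
          refine ⟨e, e p + v, x', g3.trans h1, g4.trans h2, h5, ?_⟩
          rw [← haj, h5, pow_two, padicNorm.mul, padicNorm.mul, padicNorm.mul, padicNorm.mul, g2,
            pn_prod p S hS' hpS e, pn_zpow]
          ring
        by_cases hne : (A.filter (fun a => padicNorm p a = j)).Nonempty
        · obtain ⟨a0, ha0⟩ := hne
          obtain ⟨e0, w0, x0, _, _, _, hj0⟩ := hst a0 ha0
          refine ih' (r * (p : ℚ) ^ w0) _ (mul_ne_zero hr (zpow_ne_zero _ hp0)) ?_
          intro a ha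
          obtain ⟨e, w, x, h1, h2, h3, h4⟩ := hst a ha
          have hw : w = w0 := by
            rw [hj0] at h4
            have hrn : 0 < padicNorm p r := lt_of_le_of_ne (padicNorm.nonneg r) (by
              intro h
              exact hr (padicNorm.zero_of_padicNorm_eq_zero h.symm))
            have hpp : (0 : ℚ) < p := by linarith
            have a1 : 0 ≤ padicNorm p r * (p : ℚ) ^ (-w0) := by positivity
            have a2 : 0 ≤ padicNorm p r * (p : ℚ) ^ (-w) := by positivity
            have e3 := (pow_left_inj₀ a1 a2 two_ne_zero).mp h4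
            have e5 := mul_left_cancel₀ hrn.ne' e3
            have e6 := zpow_right_injective₀ hpp hp1.ne' e5
            linarith
          refine ⟨e, x, h1, h2, ?_⟩
          rw [h3, hw]
        · rw [Finset.not_nonempty_iff_eq_empty] at hne
          rw [hne]
          exact ih' 1 ∅ one_ne_zero (fun a ha => absurd ha (Finset.notMem_empty a))
    refine hdec.trans ?_
    have hB0 : (0 : ℝ) ≤ (((k + 1) * (2 * k + 1) : ℕ) : ℝ) := Nat.cast_nonneg _
    rw [Finset.card_insert_of_notMem hpS, pow_succ']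
    rw [mul_assoc]
    refine mul_le_mul_of_nonneg_left ?_ hB0
    refine (Finset.sum_le_sum hcl).trans ?_
    rw [← Finset.mul_sum, ← Finset.mul_sum]
    refine mul_le_mul_of_nonneg_left ?_ (pow_nonneg hB0 _)
    refine mul_le_mul_of_nonneg_left ?_ (Real.rpow_nonneg hK _)
    exact sum_classes A (padicNorm p) (θ / ((k : ℝ) + 1)) ((one_le_div hk0).mpr hθ)

theorem TT_eq (m : ℕ) (A : Finset ℚ) : TT m (fun _ => A) =
    (((Fintype.piFinset (fun _ : Fin m => A)) ×ˢ (Fintype.piFinset (fun _ : Fin m => A))).filter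
      (fun p : (Fin m → ℚ) × (Fin m → ℚ) => ∑ i, p.1 i = ∑ i, p.2 i)).card := by
  unfold TT
  have hs : ∀ z : Fin m ⊕ Fin m → ℚ, ∑ l, sr m l * z l
      = ∑ i, z (Sum.inl i) - ∑ i, z (Sum.inr i) := by
    intro z
    rw [Fintype.sum_sum_type]
    simp [sr, sub_eq_add_neg]
  apply Finset.card_nbij' (fun z => (fun i => z (Sum.inl i), fun i => z (Sum.inr i)))
    (fun p => Sum.elim p.1 p.2)
  · intro z hz
    rw [Finset.mem_coe, Finset.mem_filter, Fintype.mem_piFinset, hs] at hz
    rw [Finset.mem_coe, Finset.mem_filter, Finset.mem_product, Fintype.mem_piFinset,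
      Fintype.mem_piFinset]
    exact ⟨⟨fun i => hz.1 _, fun i => hz.1 _⟩, sub_eq_zero.mp hz.2⟩
  · intro p hp
    rw [Finset.mem_coe, Finset.mem_filter, Finset.mem_product, Fintype.mem_piFinset,
      Fintype.mem_piFinset] at hp
    rw [Finset.mem_coe, Finset.mem_filter, Fintype.mem_piFinset, hs]
    refine ⟨?_, sub_eq_zero.mpr hp.2⟩
    intro l
    cases l with
    | inl i => exact hp.1.1 i
    | inr i => exact hp.1.2 i
  · intro z _
    funext l
    cases l <;> rfl
  · intro p _
    rfl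

end H41SU
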