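import Pool.Agent.H41.SU.Dcp

set_option autoImplicit false

open Finset

namespace H41SU

theorem pn_sr (p : ℕ) [Fact p.Prime] (m : ℕ) (l : Fin m ⊕ Fin m) (x : ℚ) :
    padicNorm p (sr m l * x) = padicNorm p x := by
  cases l with
  | inl i => simp [sr]
  | inr i => simp [sr]

/-- in a vanishing signed sum two terms have the same `p`-adic norm -/
theorem two_same (p : ℕ) [hp : Fact p.Prime] (k : ℕ)
    (z : Fin (k + 1) ⊕ Fin (k + 1) → ℚ) (h : ∑ l, sr (k + 1) l * z l = 0) :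
    ∃ l l', l ≠ l' ∧ padicNorm p (z l) = padicNorm p (z l') := by
  classical
  by_contra hc
  push Not at hc
  obtain ⟨l0, _, hl0⟩ := Finset.exists_max_image (Finset.univ : Finset (Fin (k + 1) ⊕ Fin (k + 1)))
    (fun l => padicNorm p (z l)) ⟨Sum.inl 0, Finset.mem_univ _⟩
  have hlt : ∀ l, l ≠ l0 → padicNorm p (z l) < padicNorm p (z l0) := by
    intro l hl
    exact lt_of_le_of_ne (hl0 l (Finset.mem_univ _)) (hc l l0 hl)
  have hpos : 0 < padicNorm p (z l0) := by
    rcases l0 with i | i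
    · exact lt_of_le_of_lt (padicNorm.nonneg _) (hlt (Sum.inr 0) (by simp))
    · exact lt_of_le_of_lt (padicNorm.nonneg _) (hlt (Sum.inl 0) (by simp))
  have h1 : padicNorm p (∑ l ∈ Finset.univ.erase l0, sr (k + 1) l * z l) < padicNorm p (z l0) := by
    apply padicNorm.sum_lt' _ hpos
    intro l hl
    rw [pn_sr]
    exact hlt l (Finset.ne_of_mem_erase hl)
  have h2 : ∑ l ∈ Finset.univ.erase l0, sr (k + 1) l * z l = -(sr (k + 1) l0 * z l0) := by
    rw [← Finset.add_sum_erase _ _ (Finset.mem_univ l0)] at h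
    linarith
  rw [h2, padicNorm.neg, pn_sr] at h1
  exact lt_irrefl _ h1

/-- remove the `p`-part -/
theorem strip3 (p : ℕ) [hp : Fact p.Prime] (y : ℚ) (hy : y ≠ 0) :
    ∃ (v : ℤ) (y' : ℚ), y = (p : ℚ) ^ v * y' ∧ padicNorm p y' = 1 ∧
      |y'.num| ≤ |y.num| ∧ y'.den ≤ y.den := by
  have hn0 : y.num.natAbs ≠ 0 := by
    rw [Ne, Int.natAbs_eq_zero]; exact Rat.num_ne_zero.mpr hy
  obtain ⟨a, m, hm, hma⟩ := Nat.exists_eq_pow_mul_and_not_dvd hn0 p hp.out.ne_one
  obtain ⟨b, n, hn, hnb⟩ := Nat.exists_eq_pow_mul_and_not_dvd y.den_pos.ne' p hp.out.ne_one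
  have hm0 : m ≠ 0 := by rintro rfl; exact hm (dvd_zero _)
  have hnn0 : n ≠ 0 := by rintro rfl; exact hn (dvd_zero _)
  have hp0 : (p : ℚ) ≠ 0 := by exact_mod_cast hp.out.ne_zero
  obtain ⟨σ, hσ⟩ : ∃ σ : ℤ, σ = y.num.sign := ⟨_, rfl⟩
  have hnum : (y.num : ℚ) = (σ : ℚ) * ((p : ℚ) ^ a * m) := by
    have h1 : y.num = σ * (y.num.natAbs : ℤ) := by rw [hσ]; exact (Int.sign_mul_natAbs _).symm
    have h2 : (y.num : ℚ) = (σ : ℚ) * ((y.num.natAbs : ℕ) : ℚ) := by
      have h1' : (y.num : ℚ) = ((σ * (y.num.natAbs : ℤ) : ℤ) : ℚ) := by rw [← h1]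
      rw [h1', Int.cast_mul, Int.cast_natCast]
    rw [h2, hma]
    push_cast
    ring
  have hσ1 : σ = 1 ∨ σ = -1 := by
    rw [hσ]
    rcases Int.sign_trichotomy y.num with h | h | h
    · exact Or.inl h
    · exfalso
      rw [Int.sign_eq_zero_iff_zero] at h
      exact hn0 (by rw [h]; rfl)
    · exact Or.inr h
  have hden : (y.den : ℚ) = (p : ℚ) ^ b * n := by exact_mod_cast hnb
  obtain ⟨y', hy'⟩ : ∃ y' : ℚ, y' = ((σ * m : ℤ) : ℚ) / ((n : ℤ) : ℚ) := ⟨_, rfl⟩
  have hnq : (n : ℚ) ≠ 0 := by exact_mod_cast hnn0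
  have hmq : (m : ℚ) ≠ 0 := by exact_mod_cast hm0
  have hpn : ∀ k : ℕ, k ≠ 0 → ¬ p ∣ k → padicNorm p (k : ℚ) = 1 := by
    intro k hk hk'
    rw [padicNorm.nat_eq_one_iff]
    exact hk'
  refine ⟨(a : ℤ) - b, y', ?_, ?_, ?_⟩
  · have h1 : y = (y.num : ℚ) / y.den := (Rat.num_div_den y).symm
    rw [h1, hnum, hden, hy', zpow_sub₀ hp0, zpow_natCast, zpow_natCast]
    push_cast
    field_simp
  · rw [hy']
    push_cast
    rw [padicNorm.div, padicNorm.mul, hpn m hm0 hm, hpn n hnn0 hn]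
    rcases hσ1 with h | h
    · rw [h]; simp
    · rw [h]; simp
  · have h1 : y'.num ∣ σ * m := by
      rw [hy', ← Rat.divInt_eq_div]
      exact Rat.num_dvd _ (by exact_mod_cast hnn0)
    have h2 : y'.num.natAbs ∣ m := by
      have := Int.natAbs_dvd_natAbs.mpr h1
      rw [Int.natAbs_mul] at this
      rcases hσ1 with h | h <;> rw [h] at this <;> simpa using this
    have h3 : y'.num.natAbs ≤ m := Nat.le_of_dvd (Nat.pos_of_ne_zero hm0) h2
    have h4 : (y'.den : ℤ) ∣ (n : ℤ) := by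
      rw [hy', ← Rat.divInt_eq_div]
      exact Rat.den_dvd _ _
    have h5 : y'.den ≤ n := Nat.le_of_dvd (Nat.pos_of_ne_zero hnn0) (by exact_mod_cast h4)
    have h6 : m ≤ y.num.natAbs := by
      rw [hma]
      exact Nat.le_mul_of_pos_left _ (pow_pos hp.out.pos _)
    have h7 : n ≤ y.den := by
      rw [hnb]
      exact Nat.le_mul_of_pos_left _ (pow_pos hp.out.pos _)
    constructor
    · rw [Int.abs_eq_natAbs, Int.abs_eq_natAbs]
      exact_mod_cast h3.trans h6
    · exact h5.trans h7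

theorem pn_prod (p : ℕ) [hp : Fact p.Prime] (S : Finset ℕ) (hS : ∀ q ∈ S, q.Prime) (hpS : p ∉ S)
    (e : ℕ → ℤ) : padicNorm p (∏ q ∈ S, (q : ℚ) ^ (e q)) = 1 := by
  induction S using Finset.induction_on with
  | empty => simp
  | insert q S hq ih =>
    rw [Finset.prod_insert hq, padicNorm.mul,
      ih (fun q' hq' => hS q' (Finset.mem_insert_of_mem hq'))
        (fun h => hpS (Finset.mem_insert_of_mem h)), mul_one]
    have hqp : q.Prime := hS q (Finset.mem_insert_self q S)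
    have hne : p ≠ q := by
      rintro rfl
      exact hpS (Finset.mem_insert_self _ _)
    have h1 : padicNorm p (q : ℚ) = 1 := by
      rw [padicNorm.nat_eq_one_iff]
      intro hd
      exact hne ((Nat.prime_dvd_prime_iff_eq hp.out hqp).mp hd)
    have this : ∀ n : ℕ, padicNorm p ((q : ℚ) ^ n) = 1 := by
      intro n
      induction n with
      | zero => simp
      | succ n ih2 => rw [pow_succ, padicNorm.mul, ih2, h1, one_mul]
    rcases (e q).eq_nat_or_neg with ⟨n, hn | hn⟩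
    · rw [hn, zpow_natCast, this n]
    · rw [hn, zpow_neg, zpow_natCast]
      have h3 := padicNorm.div (p := p) 1 ((q : ℚ) ^ n)
      rw [one_div] at h3
      rw [h3, padicNorm.one, this n, div_one]

theorem pn_zpow (p : ℕ) [hp : Fact p.Prime] (v : ℤ) :
    padicNorm p ((p : ℚ) ^ v) = (p : ℚ) ^ (-v) := by
  have hp0 : (p : ℚ) ≠ 0 := by exact_mod_cast hp.out.ne_zero
  rw [padicNorm.eq_zpow_of_nonzero (zpow_ne_zero _ hp0), padicValRat.zpow,
    padicValRat.self hp.out.one_lt, mul_one]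

end H41SU
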